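import Pool.Agent.H983R2.ONJ.Main1
import Pool.Agent.H983R2.ONJ.Main2
import Pool.Agent.H983R2.ONJ.GeoC

/-! # Task MAIN: the influence bound for Gibbs functionals, port of helper760's `Mainb` -/

set_option autoImplicit false

noncomputable section

namespace Pool.Agent.H983R2.ONJ

open MvPolynomial Pool.Agent.H5R2.ON Pool.Agent.H717R2.ON3

namespace Aux467

theorem tri {L : ℕ} [NeZero L] (x y z : Tor L) :
    tnorm (x - z) ≤ tnorm (x - y) + tnorm (y - z) := by
  have h := tnorm_add_le (x - y) (y - z)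
  rwa [sub_add_sub_cancel] at h

theorem fR_off {L : ℕ} [NeZero L] {R : ℝ} (hR : 0 < R) {p x : Tor L} (h : x ∉ ball p R) :
    fR R p x = 0 := by
  apply fR_far R hR
  rw [mem_ball] at h
  push Not at h
  linarith

variable {L : ℕ} [NeZero L] {ι : Type} [Fintype ι] {G : Gr (Tor L) ι} {β R : ℝ} {p : Tor L}
  (W : WFun G β (ball p R))

/-- integration by parts for the current of one scale -/
theorem ibp_scale {ρ K : ℝ} (hG : Nice G β ρ K) {l : ℝ} (hl : 1 ≤ l) (hρ : ρ ≤ l)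
    (hR : 100 * l ≤ R) :
    W.E (UU G β (kl R p l) 2 * X (p, 1)) = -W.E (X (p, 0)) := by
  classical
  have hR0 : 0 < R := by linarith
  have h1 := W.ibp2 (kl_anti R p l) (fun x y h => by
    obtain ⟨_, _, h3, h4⟩ := kl_supp hl hR h
    exact ⟨mem_ball.2 (by linarith), mem_ball.2 (by linarith)⟩) 2 (X (p, 1))
  have h2 : ∑ x, ∑ y, kl R p l x y • D y (2 + 2) (D x (2 + 1) (X (p, 1) : Alg (Tor L))) = 0 := by
    apply Finset.sum_eq_zero
    intro x _
    apply Finset.sum_eq_zero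
    intro y _
    by_cases hx : p = x
    · have : kl R p l x y = 0 := by
        by_contra hne
        obtain ⟨h3, _⟩ := kl_supp hl hR hne
        rw [← hx, sub_self, tnorm_zero] at h3
        linarith
      rw [this, zero_smul]
    · rw [D_X]
      simp [hx]
  have h3 : (fun e => kl R p l (G.s e) (G.t e)) = grad G (fR R p) := by
    funext e
    exact kl_edgeJ hG hl hρ hR p e
  have h4 := W.ibpR (b := fR R p) (fun x hx => fR_off hR0 hx) 2 (X (p, 1))
  have h5 : Pool.Agent.H717R2.ON3.R (fR R p) 2 (X (p, 1) : Alg (Tor L)) = X (p, 0) := by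
    rw [Pool.Agent.H717R2.ON3.R_apply]
    rw [Finset.sum_eq_single p]
    · rw [D_X, fR_near R hR0 p p (by rw [sub_self, tnorm_zero]; positivity)]
      simp
    · intro x _ hx
      rw [D_X]
      have : ¬ p = x := fun h => hx h.symm
      simp [this]
    · intro h
      exact absurd (Finset.mem_univ p) h
  rw [h1, h2, h3, map_zero, add_zero, ← h5, h4]
  rfl

/-- the square of an average of almost orthogonal elements -/
theorem avg_sq {n : ℕ} (hn : 0 < n) (U : ℕ → Alg (Tor L)) {C₁ C₂ : ℝ} (hC₂ : 0 ≤ C₂)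
    (h1 : ∀ i < n, W.E (U i ^ 2) ≤ C₁) (h2 : ∀ i < n, ∀ j < n, i < j → |W.E (U j * U i)| ≤ C₂) :
    W.E ((-((1 / (n : ℝ)) • ∑ j ∈ Finset.range n, U j)) ^ 2) ≤ C₁ / n + C₂ := by
  have hn' : (0 : ℝ) < n := by exact_mod_cast hn
  have e1 : (-((1 / (n : ℝ)) • ∑ j ∈ Finset.range n, U j)) ^ 2 =
      ((1 / (n : ℝ)) ^ 2) • ∑ i ∈ Finset.range n, ∑ j ∈ Finset.range n, U i * U j := by
    rw [neg_sq, smul_pow, sq (∑ j ∈ Finset.range n, U j), Finset.sum_mul_sum]
  rw [e1, map_smul, map_sum, smul_eq_mul]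
  have h3 : ∀ i ∈ Finset.range n, W.E (∑ j ∈ Finset.range n, U i * U j) ≤ C₁ + n * C₂ := by
    intro i hi
    rw [map_sum, ← Finset.add_sum_erase _ _ hi]
    have hi' := Finset.mem_range.1 hi
    have a1 : W.E (U i * U i) ≤ C₁ := by
      rw [← sq]
      exact h1 i hi'
    have a2 : ∑ j ∈ (Finset.range n).erase i, W.E (U i * U j) ≤
        ∑ j ∈ (Finset.range n).erase i, C₂ := by
      apply Finset.sum_le_sum
      intro j hj
      rw [Finset.mem_erase, Finset.mem_range] at hj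
      rcases lt_or_gt_of_ne hj.1 with h | h
      · exact (le_abs_self _).trans (h2 j hj.2 i hi' h)
      · rw [mul_comm]
        exact (le_abs_self _).trans (h2 i hi' j hj.2 h)
    have a3 : ∑ j ∈ (Finset.range n).erase i, C₂ ≤ n * C₂ := by
      rw [Finset.sum_const, nsmul_eq_mul]
      apply mul_le_mul_of_nonneg_right _ hC₂
      have : ((Finset.range n).erase i).card ≤ n := by
        calc ((Finset.range n).erase i).card ≤ (Finset.range n).card :=
              Finset.card_le_card (Finset.erase_subset _ _)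
          _ = n := Finset.card_range n
      exact_mod_cast this
    linarith
  have h4 := Finset.sum_le_sum h3
  rw [Finset.sum_const, Finset.card_range, nsmul_eq_mul] at h4
  calc (1 / (n : ℝ)) ^ 2 * ∑ i ∈ Finset.range n, W.E (∑ j ∈ Finset.range n, U i * U j)
      ≤ (1 / (n : ℝ)) ^ 2 * (n * (C₁ + n * C₂)) := mul_le_mul_of_nonneg_left h4 (by positivity)
    _ = C₁ / n + C₂ := by
        field_simp

end Aux467

open Aux467 in
theorem main_boundJ (K ε : ℝ) (hK : 0 ≤ K) (hε : 0 < ε) : ∃ R₀ : ℝ, 0 < R₀ ∧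
    ∀ R : ℝ, R₀ ≤ R → ∀ (L : ℕ) [NeZero L], 2 * R < L → ∀ {ι : Type} [Fintype ι]
      (G : Gr (Tor L) ι) (β ρ : ℝ), Nice G β ρ K → 1 ≤ ρ → ρ ≤ √R → ∀ (p : Tor L)
      (W : WFun G β (ball p R)), ∃ U : Alg (Tor L),
      W.E (U ^ 2) ≤ ε ∧ W.E (X (p, 0)) = W.E (U * X (p, 1)) ∧
      ∀ σ σ' : Tor L × Fin 3 → ℝ,
        (∀ x, R / 8 ≤ tnorm (x - p) → ∀ g, σ (x, g) = σ' (x, g)) →
          eval σ U = eval σ' U := by
  classical
  obtain ⟨C₁, hC₁, hone⟩ := single_scaleJ K hK
  obtain ⟨C₂, hC₂, hcross⟩ := cross_scaleJ K hK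
  obtain ⟨n, hn⟩ := exists_nat_gt (2 * C₁ / ε)
  have hn0' : (0 : ℝ) < n := lt_of_le_of_lt (by positivity) hn
  have hn0 : 0 < n := by exact_mod_cast hn0'
  set δ : ℝ := (ε / (2 * C₂)) ^ 2 with hδ
  have hδ0 : 0 < δ := by positivity
  have hsq : √δ = ε / (2 * C₂) := Real.sqrt_sq (by positivity)
  obtain ⟨R₁, hR₁, hphi⟩ := phiJ K δ (7 * 16 ^ n) hK hδ0 (by positivity)
  refine ⟨max R₁ (max ((100 * 16 ^ n) ^ 2) 576), lt_max_of_lt_left hR₁, ?_⟩
  intro R hR L _ hL ι _ G β ρ hG hρ1 hρR p W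
  have hRR₁ : R₁ ≤ R := (le_max_left _ _).trans hR
  have hR16 : (100 * 16 ^ n) ^ 2 ≤ R := ((le_max_left _ _).trans (le_max_right _ _)).trans hR
  have hR576 : 576 ≤ R := ((le_max_right _ _).trans (le_max_right _ _)).trans hR
  have hR0 : 0 < R := by linarith
  have hs0 : 0 < √R := Real.sqrt_pos.2 hR0
  have hss : √R * √R = R := Real.mul_self_sqrt hR0.le
  have hs16 : 100 * 16 ^ n ≤ √R := Real.le_sqrt_of_sq_le hR16
  have hs24 : 24 ≤ √R := Real.le_sqrt_of_sq_le (by norm_num; exact hR576)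
  have hρ24 : ρ ≤ R / 24 := by
    rw [le_div_iff₀ (by norm_num)]
    nlinarith
  have h16 : ∀ j : ℕ, (1 : ℝ) ≤ 16 ^ j := fun j => one_le_pow₀ (by norm_num)
  have hρ0 : 0 ≤ ρ := by linarith
  set l : ℕ → ℝ := fun j => 16 ^ j * ρ with hl
  have hρl : ∀ j, ρ ≤ l j := fun j => by
    have := mul_le_mul_of_nonneg_right (h16 j) hρ0
    rwa [one_mul] at this
  have hl1 : ∀ j, 1 ≤ l j := fun j => hρ1.trans (hρl j)
  have hln : ∀ j < n, l j ≤ 16 ^ n * √R := by
    intro j hj
    have h1 : (16 : ℝ) ^ j ≤ 16 ^ n := pow_le_pow_right₀ (by norm_num) hj.le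
    exact mul_le_mul h1 hρR hρ0 (by positivity)
  have hlR : ∀ j < n, 100 * l j ≤ R := by
    intro j hj
    have h1 := hln j hj
    have h2 : 100 * 16 ^ n * √R ≤ √R * √R := mul_le_mul_of_nonneg_right hs16 hs0.le
    linarith
  have h1 : ∀ i < n, W.E (UU G β (kl R p (l i)) 2 ^ 2) ≤ C₁ := by
    intro i hi
    exact hone R (l i) ρ β (hl1 i) hρ0 (hρl i) (hlR i hi) L hL G hG p W
  have h2 : ∀ i < n, ∀ j < n, i < j →
      |W.E (UU G β (kl R p (l j)) 2 * UU G β (kl R p (l i)) 2)| ≤ C₂ * √δ := by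
    intro i hi j hj hij
    refine hcross R (l i) (l j) δ ρ β (hl1 i) hρ0 (hρl i) ?_ (hlR j hj) hδ0.le L hL G hG p W ?_
    · have h3 : (16 : ℝ) ^ (i + 1) ≤ 16 ^ j := pow_le_pow_right₀ (by norm_num) hij
      rw [pow_succ] at h3
      have h4 := mul_le_mul_of_nonneg_right h3 hρ0
      show 16 * (16 ^ i * ρ) ≤ 16 ^ j * ρ
      linarith
    · intro a
      obtain ⟨φ, hφ1, hφ0, hφE⟩ := hphi R hRR₁ L a
      refine ⟨φ, fun x hx => hφ1 x (hx.trans ?_), hφ0, hφE G β ρ hG⟩
      have := hln i hi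
      linarith
  refine ⟨-((1 / (n : ℝ)) • ∑ j ∈ Finset.range n, UU G β (kl R p (l j)) 2), ?_, ?_, ?_⟩
  · refine (avg_sq W hn0 _ (by positivity) h1 h2).trans ?_
    have h3 : C₁ / n ≤ ε / 2 := by
      rw [div_le_iff₀ hn0']
      rw [div_lt_iff₀ hε] at hn
      linarith
    have h4 : C₂ * √δ = ε / 2 := by
      rw [hsq]
      field_simp
    linarith
  · rw [neg_mul, smul_mul_assoc, Finset.sum_mul, map_neg, map_smul, map_sum]
    rw [Finset.sum_congr rfl fun j hj =>
      ibp_scale W hG (hl1 j) (hρl j) (hlR j (Finset.mem_range.1 hj))]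
    rw [Finset.sum_const, Finset.card_range, nsmul_eq_mul, smul_eq_mul]
    field_simp
  · intro σ σ' hσ
    have h3 : ∀ j ∈ Finset.range n, eval σ (UU G β (kl R p (l j)) 2) =
        eval σ' (UU G β (kl R p (l j)) 2) := by
      intro j hj
      have hj' := Finset.mem_range.1 hj
      apply eval_UU_congr G β (A := {x : Tor L | R / 8 ≤ tnorm (x - p)})
        (B := {x : Tor L | R / 6 ≤ tnorm (x - p)})
      · intro x y h
        obtain ⟨h4, h5, _⟩ := kl_supp (hl1 j) (hlR j hj') h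
        exact ⟨h4, h5⟩
      · intro e he
        have h4 := hG.range e
        have h5 := tri (G.s e) (G.t e) p
        have h6 := tri (G.t e) (G.s e) p
        rw [tnorm_sub_comm (G.s e) (G.t e)] at h5
        simp only [Set.mem_ofPred_eq] at he ⊢
        rcases he with h | h
        · exact ⟨by linarith, by linarith⟩
        · exact ⟨by linarith, by linarith⟩
      · intro x hx j
        exact hσ x hx j
    simp only [map_neg, smul_eval, map_sum]
    rw [Finset.sum_congr rfl h3]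

end Pool.Agent.H983R2.ONJ
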